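import Pool.Agent.Helper49.QU.Defs

/-!
# T-QUAD, P6: the symbols are not zero; two constant vectors
-/

set_option autoImplicit false

namespace Pool.Agent.Helper28.QU

open Matrix Pool.Agent.Helper49.QU

section Map

variable {R S : Type*} [CommRing R] [CommRing S] (φ : R →+* S) {M : ℕ}

theorem map_bil (B : Matrix (Fin M) (Fin M) R) (v w : Fin M → R) :
    φ (bil B v w) = bil (B.map φ) (fun j => φ (v j)) (fun j => φ (w j)) := by
  simp only [bil, map_sum, map_mul, Matrix.map_apply]

theorem map_D1 (B : Matrix (Fin M) (Fin M) R) (v : Fin 3 → Fin M → R) :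
    φ (D1 B v) = D1 (B.map φ) (fun c j => φ (v c j)) := map_bil φ B _ _

theorem map_D2 (B : Matrix (Fin M) (Fin M) R) (v : Fin 3 → Fin M → R) :
    φ (D2 B v) = D2 (B.map φ) (fun c j => φ (v c j)) := by
  simp only [D2, map_sub, map_mul, map_pow, map_bil]

theorem map_D3 (B : Matrix (Fin M) (Fin M) R) (v : Fin 3 → Fin M → R) :
    φ (D3 B v) = D3 (B.map φ) (fun c j => φ (v c j)) := by
  unfold D3
  rw [RingHom.map_det]
  congr 1
  ext c d
  simp only [RingHom.mapMatrix_apply, Matrix.map_apply, Matrix.of_apply, map_bil]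

end Map

/-- the Gram minors of three orthogonal anisotropic vectors -/
theorem D_ne_zero {F : Type*} [Field F] {M : ℕ} (B : Matrix (Fin M) (Fin M) F)
    (V : Fin 3 → Fin M → F) (h1 : ∀ c, bil B (V c) (V c) ≠ 0)
    (h2 : ∀ c d, c ≠ d → bil B (V c) (V d) = 0) :
    D1 B V ≠ 0 ∧ D2 B V ≠ 0 ∧ D3 B V ≠ 0 := by
  refine ⟨h1 0, ?_, ?_⟩
  · unfold D2
    rw [h2 0 1 (by decide)]
    simpa using ⟨h1 0, h1 1⟩
  · unfold D3
    have : (Matrix.of fun c d : Fin 3 => bil B (V c) (V d)) =
        Matrix.diagonal fun c => bil B (V c) (V c) := by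
      ext c d
      rw [Matrix.of_apply, Matrix.diagonal_apply]
      split_ifs with h
      · rw [h]
      · exact h2 c d h
    rw [this, Matrix.det_diagonal]
    exact Finset.prod_ne_zero_iff.2 fun c _ => h1 c

variable {n r : ℕ} {N : Fin r → ℕ} {k : Type} [Field k]

/-- three orthogonal anisotropic vectors over the fraction field -/
theorem exists_vec [CharZero k] {M : ℕ} (B : Matrix (Fin M) (Fin M) (MvPolynomial (Fin n) k))
    (hB : B.IsSymm) (h : ∃ f g : Fin 3 → Fin M, (B.submatrix f g).det ≠ 0) :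
    ∃ V : Fin 3 → Fin M → FractionRing (MvPolynomial (Fin n) k),
      D1 (B.map (algebraMap _ (FractionRing (MvPolynomial (Fin n) k)))) V ≠ 0 ∧
      D2 (B.map (algebraMap _ (FractionRing (MvPolynomial (Fin n) k)))) V ≠ 0 ∧
      D3 (B.map (algebraMap _ (FractionRing (MvPolynomial (Fin n) k)))) V ≠ 0 := by
  obtain ⟨f, g, hfg⟩ := h
  have hinj : Function.Injective
      (algebraMap (MvPolynomial (Fin n) k) (FractionRing (MvPolynomial (Fin n) k))) :=
    IsFractionRing.injective _ _
  have hch : CharZero (FractionRing (MvPolynomial (Fin n) k)) :=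
    charZero_of_injective_algebraMap hinj
  obtain ⟨V, h1, h2⟩ := exists_three
    (B.map (algebraMap _ (FractionRing (MvPolynomial (Fin n) k)))) (by
      unfold Matrix.IsSymm
      rw [← Matrix.transpose_map, hB.eq]) f g (by
      rw [Matrix.submatrix_map, ← RingHom.mapMatrix_apply, ← RingHom.map_det]
      exact (map_ne_zero_iff _ hinj).2 hfg)
  exact ⟨V, D_ne_zero _ V h1 h2⟩

/-- **P6a.** -/
theorem aQ_bQ_ne_zero [CharZero k]
    (B : ∀ i : Fin r, Matrix (Fin (N i)) (Fin (N i)) (MvPolynomial (Fin n) k))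
    (hB : ∀ i, (B i).IsSymm) (i : Fin r)
    (h : ∃ f g : Fin 3 → Fin (N i), ((B i).submatrix f g).det ≠ 0) :
    aQ N B i ≠ 0 ∧ bQ N B i ≠ 0 := by
  classical
  obtain ⟨V, h1, h2, h3⟩ := exists_vec (B i) (hB i) h
  let F := FractionRing (MvPolynomial (Fin n) k)
  let V' : ∀ i' : Fin r, Fin 3 → Fin (N i') → F := Function.update (fun _ => 0) i V
  let x : Fin (vn N + n) → F := fun t => Fin.addCases (motive := fun _ => F)
    (fun s => V' ((Fintype.equivFin (VI N)).symm s).1 ((Fintype.equivFin (VI N)).symm s).2.1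
      ((Fintype.equivFin (VI N)).symm s).2.2)
    (fun j => algebraMap (MvPolynomial (Fin n) k) F (MvPolynomial.X j)) t
  have hxr : ∀ j, x (tix N j) = algebraMap (MvPolynomial (Fin n) k) F (MvPolynomial.X j) :=
    fun j => Fin.addCases_right (motive := fun _ => F) j
  have hxl : ∀ s : VI N, x (vix N s) = V' s.1 s.2.1 s.2.2 := by
    intro s
    have h0 : x (vix N s) = V' ((Fintype.equivFin (VI N)).symm (Fintype.equivFin (VI N) s)).1
        ((Fintype.equivFin (VI N)).symm (Fintype.equivFin (VI N) s)).2.1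
        ((Fintype.equivFin (VI N)).symm (Fintype.equivFin (VI N) s)).2.2 :=
      Fin.addCases_left (motive := fun _ => F) (Fintype.equivFin (VI N) s)
    rw [h0, Equiv.symm_apply_apply]
  let ψ : MvPolynomial (Fin (vn N + n)) k →+* F := MvPolynomial.eval₂Hom
    ((algebraMap (MvPolynomial (Fin n) k) F).comp MvPolynomial.C) x
  have hinc : ∀ p : MvPolynomial (Fin n) k, ψ (inc n N k p) = algebraMap _ F p := by
    intro p
    change MvPolynomial.eval₂ _ x (MvPolynomial.rename (tix N) p) = _
    rw [MvPolynomial.eval₂_rename]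
    have hx : x ∘ tix N = fun j => algebraMap (MvPolynomial (Fin n) k) F (MvPolynomial.X j) :=
      funext hxr
    rw [hx]
    have := MvPolynomial.eval₂_comp_left (algebraMap (MvPolynomial (Fin n) k) F) MvPolynomial.C
      (fun j => (MvPolynomial.X j : MvPolynomial (Fin n) k)) p
    rw [MvPolynomial.eval₂_eta] at this
    exact this.symm
  have hB' : (incB N B i).map ψ = (B i).map (algebraMap _ F) := by
    ext a b
    rw [Matrix.map_apply, Matrix.map_apply]
    exact hinc _
  have hv : (fun c j => ψ (gv n N k i c j)) = V := by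
    funext c j
    change MvPolynomial.eval₂ _ x (MvPolynomial.X (vix N ⟨i, c, j⟩)) = _
    rw [MvPolynomial.eval₂_X, hxl]
    change (Function.update (fun _ => 0) i V : ∀ i' : Fin r, Fin 3 → Fin (N i') → F) i c j = _
    rw [Function.update_self]
  have k1 : D1 (incB N B i) (gv n N k i) ≠ 0 := by
    intro h0
    apply h1
    rw [← hB', ← hv, ← map_D1, h0, map_zero]
  have k2 : D2 (incB N B i) (gv n N k i) ≠ 0 := by
    intro h0
    apply h2
    rw [← hB', ← hv, ← map_D2, h0, map_zero]
  have k3 : D3 (incB N B i) (gv n N k i) ≠ 0 := by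
    intro h0
    apply h3
    rw [← hB', ← hv, ← map_D3, h0, map_zero]
  exact ⟨neg_ne_zero.2 k2, neg_ne_zero.2 (mul_ne_zero (mul_ne_zero k1 k2) k3)⟩

/-- **P6b.** two constant vectors -/
theorem exists_const [CharZero k] {N : ℕ} (B : Matrix (Fin N) (Fin N) (MvPolynomial (Fin n) k))
    (hB : B.IsSymm) (h : ∃ f g : Fin 3 → Fin N, (B.submatrix f g).det ≠ 0) :
    ∃ v : Fin 3 → Fin N → k, D1 B (fun c j => MvPolynomial.C (v c j)) *
      D2 B (fun c j => MvPolynomial.C (v c j)) ≠ 0 := by
  classical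
  obtain ⟨V, h1, h2, -⟩ := exists_vec B hB h
  let A := MvPolynomial (Fin n) k
  let F := FractionRing A
  let BB : Matrix (Fin N) (Fin N) (MvPolynomial (Fin 3 × Fin N) A) := B.map MvPolynomial.C
  let X : Fin 3 → Fin N → MvPolynomial (Fin 3 × Fin N) A := fun c j => MvPolynomial.X (c, j)
  have hP : D1 BB X * D2 BB X ≠ 0 := by
    let ψ : MvPolynomial (Fin 3 × Fin N) A →+* F := MvPolynomial.eval₂Hom
      (algebraMap A F) (fun s => V s.1 s.2)
    have e1 : BB.map ψ = B.map (algebraMap A F) := by
      ext1 a b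
      change ψ (MvPolynomial.C (B a b)) = algebraMap A F (B a b)
      exact MvPolynomial.eval₂_C _ _ _
    have e2 : (fun c j => ψ (X c j)) = V := by
      funext c j
      exact MvPolynomial.eval₂_X _ _ _
    refine mul_ne_zero (fun h0 => h1 ?_) (fun h0 => h2 ?_)
    · rw [← e1, ← e2, ← map_D1, h0, map_zero]
    · rw [← e1, ← e2, ← map_D2, h0, map_zero]
  by_contra hcon
  push Not at hcon
  apply hP
  refine MvPolynomial.funext_set (fun _ => Set.range (MvPolynomial.C : k → A))
    (fun _ => Set.infinite_range_of_injective (MvPolynomial.C_injective _ _)) ?_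
  intro y hy
  rw [map_zero]
  have hy' : ∀ s : Fin 3 × Fin N, ∃ a : k, (MvPolynomial.C a : A) = y s := fun s =>
    hy s (Set.mem_univ s)
  choose a ha using hy'
  have e3 : BB.map (MvPolynomial.eval y) = B := by
    ext1 i j
    change MvPolynomial.eval y (MvPolynomial.C (B i j)) = B i j
    exact MvPolynomial.eval_C _
  have e4 : (fun c j => MvPolynomial.eval y (X c j)) =
      fun c j => (MvPolynomial.C (a (c, j)) : A) := by
    funext c j
    rw [ha]
    exact MvPolynomial.eval_X _
  rw [map_mul, map_D1, map_D2, e3, e4]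
  exact hcon fun c j => a (c, j)

end Pool.Agent.Helper28.QU
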